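import Pool.Agent.Y6.M.Stm

/-! # A differential inequality (job EM-ARS) -/

open Set Filter Topology

set_option autoImplicit false

namespace Pool.Agent.Y949.EM.Ars

open Pool.Agent.Y6.M

lemma arsinh_le {x : ℝ} (hx : 0 ≤ x) : Real.arsinh x ≤ Real.log (2 * x + 1) := by
  unfold Real.arsinh
  apply Real.log_le_log
  · positivity
  · have h : √(1 + x ^ 2) ≤ 1 + x := by
      rw [Real.sqrt_le_left (by linarith)]
      nlinarith
    linarith

theorem t_ARS : S_ARS := by
  intro s e r q F H H' hse hr hq hF hd hr1 hb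
  set g : ℝ → ℝ := fun t => Real.arsinh (H t / q) - r * t with hg
  set g' : ℝ → ℝ := fun t => (√(1 + (H t / q) ^ 2))⁻¹ • (H' t / q) - r * 1 with hg'
  have hdg : ∀ t ∈ Icc s e, HasDerivWithinAt g (g' t) (Icc s e) t := by
    intro t ht
    exact (((hd t ht).div_const q).arsinh).sub ((hasDerivWithinAt_id t _).const_mul r)
  have hpos : ∀ t ∈ Icc s e, 0 ≤ g' t := by
    intro t ht
    have h1 := hr1 t ht
    have h2 : √(1 + (H t / q) ^ 2) = √(H t ^ 2 + q ^ 2) / q := by
      rw [show 1 + (H t / q) ^ 2 = (H t ^ 2 + q ^ 2) / q ^ 2 by field_simp; ring,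
        Real.sqrt_div (by positivity), Real.sqrt_sq hq.le]
    have h3 : 0 < √(H t ^ 2 + q ^ 2) := Real.sqrt_pos.2 (by positivity)
    simp only [hg', smul_eq_mul, mul_one, sub_nonneg]
    rw [h2, inv_div, div_mul_div_comm, mul_comm q, mul_div_mul_right _ _ hq.ne', le_div_iff₀ h3]
    exact h1
  have hmono : MonotoneOn g (Icc s e) := by
    refine monotoneOn_of_deriv_nonneg (convex_Icc s e)
      (fun t ht => (hdg t ht).continuousWithinAt) ?_ ?_
    · intro t ht
      rw [interior_Icc] at ht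
      exact ((hdg t ⟨ht.1.le, ht.2.le⟩).hasDerivAt
        (Icc_mem_nhds ht.1 ht.2)).differentiableAt.differentiableWithinAt
    · intro t ht
      rw [interior_Icc] at ht
      rw [((hdg t ⟨ht.1.le, ht.2.le⟩).hasDerivAt (Icc_mem_nhds ht.1 ht.2)).deriv]
      exact hpos t ⟨ht.1.le, ht.2.le⟩
  have h1 := hmono (left_mem_Icc.2 hse) (right_mem_Icc.2 hse) hse
  have h2 : Real.arsinh (H e / q) ≤ Real.arsinh (F / q) := by
    rw [Real.arsinh_le_arsinh]
    have := (abs_le.1 (hb e (right_mem_Icc.2 hse))).2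
    gcongr
  have h3 : -Real.arsinh (F / q) ≤ Real.arsinh (H s / q) := by
    rw [← Real.arsinh_neg, Real.arsinh_le_arsinh]
    have := (abs_le.1 (hb s (left_mem_Icc.2 hse))).1
    rw [← neg_div]
    gcongr
  have h4 := arsinh_le (show 0 ≤ F / q by positivity)
  have h5 : 2 * (F / q) + 1 = 2 * F / q + 1 := by ring
  rw [h5] at h4
  simp only [hg] at h1
  linarith

end Pool.Agent.Y949.EM.Ars
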